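import Mathlib
import Pool.Agent.TH5.BD.Hecke

set_option autoImplicit false

/-!
# Lusztig's `a`-function is bounded for every Coxeter group of finite rank

Let `(W, S)` be a Coxeter group with `S` finite.  There is a constant `m`, depending only on
`(W, S)`, such that for every positive weight function `L` with `L(s) ≤ N` for all `s`,
`a(w) ≤ m N` for all `w ∈ W`, and `deg f_{x,y,z} ≤ m N` for all structure constants of the
standard basis of the Hecke algebra.

Idea.  Let `N(x, y)` be the set of the positive roots made negative by `x` and by `y⁻¹`, ordered by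
dominance.  If `x s < x` and `y = s y₁ > y₁` then
`T_x T_y = T_{xs} T_{y₁} + (q^{L(s)} - q^{-L(s)}) T_x T_{y₁}`, and the switching lemma says that
an antichain of `N(x, y₁)` with `k` elements gives an antichain of `N(x, y)` with `k + 1`
elements.  So the degree is at most `N` times the largest size of an antichain in `N(x, y)`.
The reflections of an antichain pairwise generate finite groups, and a colouring of the roots
modulo `3` shows that the antichains have bounded size.
-/

namespace Pool.Agent.Results.MP_0d46c2_al.Bounded

open Module Pool.Agent.TH5.BD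

/-- For every Coxeter system `(W, S)` with `S` finite there is a constant `m` such that for every
positive weight function `L` and every natural number `N` with `L(s) ≤ N` for all `s ∈ S`, in the
Hecke algebra of `(W, S, L)` one has `a(w) ≤ m N` for all `w`, and all structure constants of the
standard basis `T` have degree at most `m N`. -/
theorem result {B : Type*} [Fintype B] {M : CoxeterMatrix B} {W : Type*} [Group W]
    (cs : CoxeterSystem M W) :
    ∃ m : ℕ, ∀ (L : W → ℤ), IsWeight cs L → ∀ N : ℕ, (∀ i : B, L (cs.simple i) ≤ N) →
      ∀ (H : Type*) [Ring H] [Algebra A H] (T : Basis W A H), IsHecke cs L T →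
        (∀ x y z : W, (T.repr (T x * T y) z).degree ≤ ((m * N : ℕ) : ℤ)) ∧
        ∀ (bar : H →+* H) (C : Basis W A H), IsBar T bar → IsKL T bar C →
          ∀ w : W, aFun C w ≤ ((m * N : ℕ) : ℕ∞) := by
  classical
  obtain ⟨m, hm⟩ := uniform cs
  refine ⟨m, fun L hL N hN H _ _ T hT => ?_⟩
  have hd : ∀ x y, DgH T (T x * T y) ((m * N : ℕ) : ℤ) := by
    intro x y z
    refine hm _ _ (hT.isSC hL) N (fun i => ?_) x y z
    have := hN i
    show (L (cs.simple i)).toNat ≤ N
    omega
  refine ⟨fun x y z => dg_iff.1 (hd x y z), fun bar C _ hC w => ?_⟩
  refine iSup_le fun x => iSup_le fun y => iSup_le fun n => iSup_le fun hn => ?_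
  by_contra hc
  rw [not_le, Nat.cast_lt] at hc
  apply hn
  exact hC.bound hd x y w n (by exact_mod_cast hc)

end Pool.Agent.Results.MP_0d46c2_al.Bounded
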