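import Mathlib
import Pool.Agent.TH5.BD.SwitchW

set_option autoImplicit false

/-!
# The degree of `T_x T_y` and crossing walls

For every Coxeter group `(W, S)` with `S` finite, every positive weight function `L` and all
`x, y ∈ W`: the degree of `T_x T_y` is at most the total weight of some set `F` of reflections
which are common inversions of `x` and `y⁻¹` (their walls separate the fundamental chamber from
both the chamber of `x⁻¹` and the chamber of `y`) and which pairwise generate finite groups (their
walls pairwise cross).  For affine Weyl groups this is the bound of Lusztig and Guilhot by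
directions of hyperplanes.
-/

namespace Pool.Agent.Results.MP_0d46c2_al.CrossingWalls

open Module Pool.Agent.TH5.BD

/-- For all `x, y ∈ W` there is a finite set `F` of reflections, `g t` being the weight `L(s)` of
a simple reflection `s` conjugate to `t ∈ F`, such that `ℓ(xt) < ℓ(x)` and `ℓ(ty) < ℓ(y)` for all
`t ∈ F`, the product `tt'` has finite order for all `t, t' ∈ F`, and
`deg f_{x,y,z} ≤ ∑_{t ∈ F} g t` for all `z`. -/
theorem result {B : Type*} [Fintype B] {M : CoxeterMatrix B} {W : Type*} [Group W]
    (cs : CoxeterSystem M W) (L : W → ℤ) (hL : IsWeight cs L) {H : Type*} [Ring H] [Algebra A H]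
    (T : Basis W A H) (hT : IsHecke cs L T) (x y : W) :
    ∃ (F : Finset W) (g : W → ℤ),
      (∀ t ∈ F, (∃ i : B, IsConj (cs.simple i) t ∧ g t = L (cs.simple i)) ∧
        cs.length (x * t) < cs.length x ∧ cs.length (t * y) < cs.length y) ∧
      (∀ t ∈ F, ∀ t' ∈ F, IsOfFinOrder (t * t')) ∧
      ∀ z : W, (T.repr (T x * T y) z).degree ≤ ((∑ t ∈ F, g t : ℤ) : WithBot ℤ) := by
  classical
  obtain ⟨F, g, h1, h2, h3⟩ := (hT.isSC hL).crossing x y
  refine ⟨F, fun t => (g t : ℤ), fun t ht => ?_, h2, fun z => dg_iff.1 ?_⟩
  · obtain ⟨⟨i, hi, hg⟩, hx, hy⟩ := h1 t ht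
    refine ⟨⟨i, hi, ?_⟩, hx, hy⟩
    show ((g t : ℕ) : ℤ) = L (cs.simple i)
    rw [hg]
    exact Int.toNat_of_nonneg (hL.pos i).le
  · have := h3 z
    push_cast at this
    exact this

end Pool.Agent.Results.MP_0d46c2_al.CrossingWalls
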