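import Mathlib
import Pool.Agent.TH5.BD.ReduceMain

set_option autoImplicit false

/-!
# Lusztig's bound `a ≤ N_0`: reduction to 2-spherical parabolic subgroups

Let `(W, S)` be a Coxeter group with `S` finite and `L` a positive weight function.  Every degree
of a structure constant `f_{x,y,z}` is bounded by a degree that occurs in a standard parabolic
subgroup `W_J` all of whose labels `m(s,t)`, `s, t ∈ J`, are finite.  Consequently Lusztig's
conjecture `a(w) ≤ N_0` holds when every such `W_J` is finite (Coxeter groups of type FC).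

Idea.  If `m(s,t) = ∞` then `W` is the amalgam of `W_1 = W_{S - t}` and `W_2 = W_{S - s}` over
`W_3 = W_{S - {s,t}}`.  Write `x = x' w a'`, `y = b' v y'` with `x'` minimal in `x W_1`, `w ∈ W_3`,
`a' ∈ W_1` minimal in `W_3 a'`, and so on.  The component of `T_{a'} T_{b'}` in the Hecke algebra of
`W_3` is `1` if `a' b' = 1` and `0` otherwise, and lengths add in `x' c y'` for
`c ∈ W_1 - W_3`; so the degrees of `T_x T_y` are degrees of `T_{wa'} T_{b'v}` or of
`T_{x'w} T_{vy'}`, and one concludes by induction.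
-/

namespace Pool.Agent.Results.MP_0d46c2_al.TwoSphericalReduction

open Module Pool.Agent.TH5.BD

/-- Let `H` be the Hecke algebra of `(W, S, L)`, `S` finite.

(1) For all `x, y, z ∈ W` there are a 2-spherical `J ⊆ S` and `x', y', z' ∈ W_J` such that
`deg f_{x,y,z} ≤ deg f_{x',y',z'}`.

(2) If `W_J` is finite for every 2-spherical `J`, then all structure constants `f_{x,y,z}` have
degree at most `N_0`, and `a(w) ≤ N_0` for all `w ∈ W`. -/
theorem result {B : Type*} [Fintype B] {M : CoxeterMatrix B} {W : Type*} [Group W]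
    (cs : CoxeterSystem M W) (L : W → ℤ) (hL : IsWeight cs L) {H : Type*} [Ring H] [Algebra A H]
    (T : Basis W A H) (hT : IsHecke cs L T) :
    (∀ x y z : W, ∃ J : Set B, TwoSpherical M J ∧
      ∃ x' ∈ WJ cs J, ∃ y' ∈ WJ cs J, ∃ z' ∈ WJ cs J,
        (T.repr (T x * T y) z).degree ≤ (T.repr (T x' * T y') z').degree) ∧
    ((∀ J : Set B, TwoSpherical M J → (WJ cs J : Set W).Finite) → ∀ N : ℕ, IsNZero cs L N →
      (∀ x y z : W, (T.repr (T x * T y) z).degree ≤ (N : ℤ)) ∧
      ∀ (bar : H →+* H) (C : Basis W A H), IsBar T bar → IsKL T bar C →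
        ∀ w : W, aFun C w ≤ (N : ℕ∞)) := by
  classical
  refine ⟨fun x y z => hT.main_twoSph x y z, fun hfc N hN => ?_⟩
  have hd : ∀ x y, DgH T (T x * T y) (N : ℤ) := fun x y => hT.main_fc hL hfc hN x y
  refine ⟨fun x y z => dg_iff.1 (hd x y z), fun bar C _ hC w => ?_⟩
  refine iSup_le fun x => iSup_le fun y => iSup_le fun n => iSup_le fun hn => ?_
  by_contra hc
  rw [not_le, Nat.cast_lt] at hc
  apply hn
  exact hC.bound hd x y w n (by exact_mod_cast hc)

end Pool.Agent.Results.MP_0d46c2_al.TwoSphericalReduction
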